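import Pool.Agent.LCE.Scb

/-!
# LCE, part D: the counting theorem
-/

set_option autoImplicit false

namespace LCE

open Finset Function ArithmeticFunction Filter Topology LCB LCD

theorem one_sub_sum_le_prod {s : Finset ℕ} {a : ℕ → ℝ} (h0 : ∀ i ∈ s, 0 ≤ a i) (h1 : ∀ i ∈ s, a i ≤ 1) :
    1 - ∑ i ∈ s, a i ≤ ∏ i ∈ s, (1 - a i) := by
  induction s using Finset.induction_on with
  | empty => simp
  | insert i s hi ih =>
    rw [sum_insert hi, prod_insert hi]
    have h2 := ih (fun j hj => h0 j (mem_insert_of_mem hj)) (fun j hj => h1 j (mem_insert_of_mem hj))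
    have h3 := h0 i (mem_insert_self i s)
    have h4 := h1 i (mem_insert_self i s)
    have h5 : 0 ≤ ∑ j ∈ s, a j := sum_nonneg fun j hj => h0 j (mem_insert_of_mem hj)
    have h6 : (1 - a i) * (1 - ∑ j ∈ s, a j) ≤ (1 - a i) * ∏ j ∈ s, (1 - a j) :=
      mul_le_mul_of_nonneg_left h2 (by linarith)
    nlinarith

theorem prod_add_sum_ge {s : Finset ℕ} {G a : ℕ → ℝ} (hG : ∀ i ∈ s, 0 ≤ G i) (ha : ∀ i ∈ s, 0 ≤ a i)
    (h : ∀ i ∈ s, 1 ≤ G i + a i) : 1 ≤ ∏ i ∈ s, G i + ∑ i ∈ s, a i := by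
  by_cases hs : 1 ≤ ∑ i ∈ s, a i
  · have := prod_nonneg hG
    linarith
  · push Not at hs
    have h1 : ∀ i ∈ s, a i ≤ 1 := fun i hi => (single_le_sum ha hi).trans hs.le
    have h2 := one_sub_sum_le_prod ha h1
    have h3 : ∏ i ∈ s, (1 - a i) ≤ ∏ i ∈ s, G i :=
      prod_le_prod (fun i hi => by have := h1 i hi; linarith) fun i hi => by have := h i hi; linarith
    linarith

theorem grp_disj {m g g' i : ℕ} (h : g * m ≤ i ∧ i < g * m + m) (h' : g' * m ≤ i ∧ i < g' * m + m) : g = g' := by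
  rcases lt_trichotomy g g' with h1 | h1 | h1
  · have h2 : (g + 1) * m ≤ g' * m := Nat.mul_le_mul_right m h1
    have e : (g + 1) * m = g * m + m := by ring
    omega
  · exact h1
  · have h2 : (g' + 1) * m ≤ g * m := Nat.mul_le_mul_right m h1
    have e : (g' + 1) * m = g' * m + m := by ring
    omega

open scoped Classical in
theorem count_E : ∃ C1 : ℝ, 0 < C1 ∧ ∃ k0 : ℕ, ∀ M A m r w N : ℕ, 1 ≤ m → 1 ≤ r → k0 ≤ M → A ≤ M → 100 ≤ A →
    2 * (M * A ^ (r * m)) ^ 2 + M * A ^ (r * m) ≤ w → (M * A ^ (r * m)) ^ (4 * r) ≤ 2 * N → C1 * √m < Real.log M →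
    (((Ico w (w + N)).filter (fun n => ∀ i < r * m, In (M * A ^ (i + 1)) n)).card : ℝ) ≤
      4 * N * ((240000000 / √m) ^ r + r * (25000000 * √m / A)) := by
  obtain ⟨C, hC, k0, hk0, hsc⟩ := scale2
  refine ⟨25000000 * C ^ 2, by positivity, k0, fun M A m r w N hm hr hM hAM hA hw hN hlog => ?_⟩
  set K := M * A ^ (r * m) with hK
  have hA1 : 1 ≤ A := by omega
  have hM2 : 2 ≤ M := hk0.trans hM
  have hK1 : 1 ≤ K := Nat.mul_pos (by omega) (Nat.pow_pos (by omega))
  have hN1 : 0 < N := by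
    have : 1 ≤ K ^ (4 * r) := Nat.one_le_pow _ _ hK1
    omega
  have hN0 : (0 : ℝ) < N := by exact_mod_cast hN1
  have hm0 : (0 : ℝ) < m := by exact_mod_cast hm
  have hA0 : (0 : ℝ) < A := by exact_mod_cast (by omega : 0 < A)
  set z : ℕ → ℕ := fun i => M * A ^ i with hz
  set k : ℕ → ℕ := fun i => M * A ^ (i + 1) with hk
  have hkz : ∀ i, k i = A * z i := fun i => by simp only [hk, hz]; rw [pow_succ]; ring
  have hzM : ∀ i, M ≤ z i := fun i => Nat.le_mul_of_pos_right _ (Nat.pow_pos (by omega))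
  have hzk : ∀ i, z i ≤ k i := fun i => by rw [hkz]; exact Nat.le_mul_of_pos_left _ (by omega)
  have hkK : ∀ i, i < r * m → k i ≤ K := fun i hi => Nat.mul_le_mul_left _ (Nat.pow_le_pow_right hA1 (by omega))
  have hscale := fun i => hsc (z i) (k i) (hM.trans ((hzM i).trans (hzk i)))
    (by rw [hkz]; exact Nat.mul_le_mul_right _ hA)
    (by rw [hkz, sq]; exact Nat.mul_le_mul_right _ (hAM.trans (hzM i)))
  set Q := Qn K with hQ
  have hQ0 : 0 < Q := Qn_pos K
  have hsc2 : ∀ i, i < r * m → _ := fun i hi => (hscale i).1 Q hQ0 (fun p hp => pr_dvd (hkK i hi) hp)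
  set qf : ℕ → ℕ := fun i => qs (z i) (k i) with hqf
  have hqd : ∀ i, i < r * m → qf i ∣ Q := fun i hi => qs_dvd (hkK i hi)
  have hqc : ∀ i j, i ≠ j → Nat.Coprime (qf i) (qf j) := by
    intro i j hij
    refine qs_coprime ?_
    rcases lt_or_gt_of_ne hij with h | h
    · exact Or.inl (Nat.mul_le_mul_left _ (Nat.pow_le_pow_right hA1 h))
    · exact Or.inr (Nat.mul_le_mul_left _ (Nat.pow_le_pow_right hA1 h))
  -- the groups
  set I : ℕ → Finset ℕ := fun g => Ico (g * m) (g * m + m) with hI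
  have hIc : ∀ g, (I g).card = m := fun g => by rw [hI, Nat.card_Ico, Nat.add_sub_cancel_left]
  have hIr : ∀ g, g < r → ∀ i ∈ I g, i < r * m := by
    intro g hg i hi
    rw [hI, mem_Ico] at hi
    have : (g + 1) * m ≤ r * m := Nat.mul_le_mul_right m hg
    have e : (g + 1) * m = g * m + m := by ring
    omega
  set lam := √(√(m : ℝ)) with hlam
  have hsm0 : 0 < √(m : ℝ) := Real.sqrt_pos.2 hm0
  have hlam0 : 0 < lam := Real.sqrt_pos.2 hsm0
  have hlam2 : lam ^ 2 = √(m : ℝ) := Real.sq_sqrt hsm0.le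
  set τ := C / √(Real.log M) with hτ
  have hMr : (2 : ℝ) ≤ M := by exact_mod_cast hM2
  have hlogM : 0 < Real.log (M : ℝ) := Real.log_pos (by linarith)
  have hτ0 : 0 ≤ τ := by positivity
  have hτ1 : 25000000 * lam ^ 2 * τ ^ 2 < 1 := by
    rw [hlam2, hτ, div_pow, Real.sq_sqrt hlogM.le, ← mul_div_assoc, div_lt_one hlogM]
    calc 25000000 * √(m : ℝ) * C ^ 2 = 25000000 * C ^ 2 * √(m : ℝ) := by ring
      _ < _ := hlog
  set U : ℕ → ℕ → ℝ := fun i => uu (z i) (k i) with hU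
  have hUp : ∀ i, Periodic (U i) (qf i) := fun i => uu_per (z i) (k i)
  set Rr : ℕ → ℕ → ℝ := fun i => rr (z i) (k i) with hRr
  set v : ℕ → ℝ := fun g => (∑ i ∈ I g, av Q (fun n => U i n ^ 2)) / m with hv
  set G : ℕ → ℕ → ℝ := fun g => Gt (I g) m U (v g) lam with hG
  set Hh : ℕ → ℕ → ℝ := fun g n => 25000000 * lam ^ 2 * ((∑ i ∈ I g, Rr i n ^ 2) / m) with hHh
  have hv1 : ∀ g, g < r → 1 / 200 ≤ v g := by
    intro g hg
    rw [hv, le_div_iff₀ hm0]
    calc 1 / 200 * (m : ℝ) = ∑ _i ∈ I g, (1 / 200 : ℝ) := by rw [sum_const, hIc, nsmul_eq_mul]; ring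
      _ ≤ _ := sum_le_sum fun i hi => (hsc2 i (hIr g hg i hi)).1
  have hG0 : ∀ g n, 0 ≤ G g n := fun g n => Gt_nonneg _ _ _ _ _ _
  have hH0 : ∀ g n, 0 ≤ Hh g n := fun g n =>
    mul_nonneg (by positivity) (div_nonneg (sum_nonneg fun i _ => sq_nonneg _) hm0.le)
  set T : ℕ → ℝ := fun n => ∏ g ∈ range r, G g n + ∑ g ∈ range r, Hh g n with hT
  have hT0 : ∀ n, 0 ≤ T n := fun n => add_nonneg (prod_nonneg fun g _ => hG0 g n) (sum_nonneg fun g _ => hH0 g n)
  have hT1 : ∀ n, w ≤ n → (∀ i < r * m, In (M * A ^ (i + 1)) n) → 1 ≤ T n := by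
    intro n hn hall
    refine prod_add_sum_ge (fun g _ => hG0 g n) (fun g _ => hH0 g n) fun g hg => ?_
    rw [mem_range] at hg
    refine pointwise hm (hIc g) hlam0 hτ0 hτ1 (hv1 g hg) fun i hi => ?_
    have hi' := hIr g hg i hi
    have h1 := (hscale i).2 n (by
      have h2 := hkK i hi'
      have h3 : (k i) ^ 2 ≤ K ^ 2 := Nat.pow_le_pow_left h2 2
      omega) (hall i hi')
    refine le_trans ?_ h1
    rw [neg_le_neg_iff, hτ]
    have h2 : (M : ℝ) ≤ k i := by exact_mod_cast (hzM i).trans (hzk i)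
    have h3 : Real.log (M : ℝ) ≤ Real.log (k i) := Real.log_le_log (by linarith) h2
    have h4 : 0 < √(Real.log (M : ℝ)) := Real.sqrt_pos.2 hlogM
    exact div_le_div_of_nonneg_left hC.le h4 (Real.sqrt_le_sqrt h3)
  -- periods
  have hUPB : ∀ g, g < r → ∀ i ∈ I g, PB Q K (U i) := fun g hg i hi =>
    (PB_Uf hK1 (hkK i (hIr g hg i hi)) (k i)).div (sK (k i))
  have hRPB : ∀ g, g < r → ∀ i ∈ I g, PB Q K (Rr i) := fun g hg i hi =>
    (PB_Uf hK1 ((hzk i).trans (hkK i (hIr g hg i hi))) (k i)).div (sK (k i))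
  have hTPB : PB Q (K ^ (4 * r)) T := by
    refine PB.add ?_ ?_
    · have h1 := PB.prod (s := range r) (φ := G) (fun g hg => Gt_PB hK1 (hUPB g (mem_range.1 hg)) m (v g) lam)
      rw [card_range, ← pow_mul] at h1
      exact h1
    · refine PB.sum (Nat.one_le_pow _ _ hK1) fun g hg => ?_
      have h1 : PB Q (K ^ 2) (fun n => ∑ i ∈ I g, Rr i n ^ 2) :=
        PB.sum (Nat.one_le_pow _ _ hK1) fun i hi => (hRPB g (mem_range.1 hg) i hi).pow 2
      exact (((h1.div m).smul (25000000 * lam ^ 2)).mono (Nat.pow_le_pow_right hK1 (by omega)))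
  -- means
  have aG : ∀ g, g < r → av Q (G g) ≤ 240000000 / √(m : ℝ) := by
    intro g hg
    have h1 := av_Gt (U := U) (q := qf) hm (hIc g) hQ0 (fun i _ => hUp i)
      (fun i hi => hqd i (hIr g hg i hi)) (fun i _ j _ hij => hqc i j hij)
      (fun i hi => (hsc2 i (hIr g hg i hi)).2.2.1) (fun i hi => (hsc2 i (hIr g hg i hi)).2.1) hlam0
    refine h1.trans ?_
    rw [hlam2]
    have h2 : √(m : ℝ) * √(m : ℝ) = m := Real.mul_self_sqrt hm0.le
    have h3 : 1 ≤ √(m : ℝ) := Real.one_le_sqrt.2 (by exact_mod_cast hm)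
    have h4 : 225000000 * √(m : ℝ) / m = 225000000 / √(m : ℝ) := by
      rw [div_eq_div_iff hm0.ne' hsm0.ne', mul_assoc, h2]
    have h5 : (12800000 : ℝ) / m ≤ 12800000 / √(m : ℝ) := by
      refine div_le_div_of_nonneg_left (by norm_num) hsm0 ?_
      nlinarith
    rw [h4]
    have h6 : 225000000 / √(m : ℝ) + 12800000 / √(m : ℝ) + 64000 / √(m : ℝ) = 237864000 / √(m : ℝ) := by ring
    have h7 : 237864000 / √(m : ℝ) ≤ 240000000 / √(m : ℝ) := by gcongr; norm_num
    linarith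
  have aP : av Q (fun n => ∏ g ∈ range r, G g n) ≤ (240000000 / √(m : ℝ)) ^ r := by
    have h1 : av Q (fun n => ∏ g ∈ range r, G g n) = ∏ g ∈ range r, av Q (G g) := by
      refine av_prod' (q := fun g => ∏ i ∈ I g, qf i) hQ0 (fun g hg => ?_) (fun g hg => ?_) (fun g hg g' hg' hgg => ?_)
      · have h2 : ∀ i ∈ I g, Periodic (U i) (∏ i ∈ I g, qf i) := fun i hi =>
          per_of_dvd (hUp i) (dvd_prod_of_mem qf hi)
        exact Gt_per h2 m (v g) lam
      · refine Finset.prod_dvd_of_isRelPrime ?_ fun i hi => hqd i (hIr g (mem_range.1 hg) i hi)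
        intro i _ j _ hij
        exact Nat.coprime_iff_isRelPrime.1 (hqc i j hij)
      · refine Nat.Coprime.prod_left fun i hi => Nat.Coprime.prod_right fun j hj => hqc i j ?_
        rintro rfl
        rw [hI, mem_Ico] at hi hj
        exact hgg (grp_disj hi hj)
    rw [h1]
    calc ∏ g ∈ range r, av Q (G g) ≤ ∏ _g ∈ range r, 240000000 / √(m : ℝ) :=
          prod_le_prod (fun g _ => av_nonneg Q (hG0 g)) fun g hg => aG g (mem_range.1 hg)
      _ = _ := by rw [prod_const, card_range]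
  have aH : ∀ g, g < r → av Q (Hh g) ≤ 25000000 * √(m : ℝ) / A := by
    intro g hg
    have h1 : av Q (Hh g) = 25000000 * lam ^ 2 * ((∑ i ∈ I g, av Q (fun n => Rr i n ^ 2)) * (m : ℝ)⁻¹) := by
      rw [hHh]
      simp only [div_eq_mul_inv]
      rw [av_mul_left, av_mul_right, av_sum]
    rw [h1, hlam2]
    have h2 : ∑ i ∈ I g, av Q (fun n => Rr i n ^ 2) ≤ m * (1 / A) := by
      calc ∑ i ∈ I g, av Q (fun n => Rr i n ^ 2) ≤ ∑ _i ∈ I g, (1 / A : ℝ) := by
            refine sum_le_sum fun i hi => (hsc2 i (hIr g hg i hi)).2.2.2.trans (le_of_eq ?_)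
            rw [hkz i]
            push_cast
            have hz0 : (0 : ℝ) < z i := by
              have : 0 < z i := by have := hzM i; omega
              exact_mod_cast this
            field_simp
        _ = _ := by rw [sum_const, hIc, nsmul_eq_mul]
    calc 25000000 * √(m : ℝ) * ((∑ i ∈ I g, av Q (fun n => Rr i n ^ 2)) * (m : ℝ)⁻¹) ≤
        25000000 * √(m : ℝ) * ((m * (1 / A)) * (m : ℝ)⁻¹) := by gcongr
      _ = _ := by field_simp
  have aT : av Q T ≤ (240000000 / √(m : ℝ)) ^ r + r * (25000000 * √(m : ℝ) / A) := by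
    have h1 : av Q T = av Q (fun n => ∏ g ∈ range r, G g n) + ∑ g ∈ range r, av Q (Hh g) := by
      rw [hT, av_add, av_sum]
    rw [h1]
    have h2 : ∑ g ∈ range r, av Q (Hh g) ≤ r * (25000000 * √(m : ℝ) / A) := by
      calc ∑ g ∈ range r, av Q (Hh g) ≤ ∑ _g ∈ range r, 25000000 * √(m : ℝ) / A :=
            sum_le_sum fun g hg => aH g (mem_range.1 hg)
        _ = _ := by rw [sum_const, card_range, nsmul_eq_mul]
    linarith
  have hfej := fejer hQ0 hN1 hN hTPB hT0 w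
  set gd : ℕ → ℝ := fun n => if ∀ i < r * m, In (M * A ^ (i + 1)) n then 1 else 0 with hgd
  have hcard : (((Ico w (w + N)).filter (fun n => ∀ i < r * m, In (M * A ^ (i + 1)) n)).card : ℝ) = ∑ j ∈ range N, gd (w + j) := by
    rw [card_filter]
    push_cast
    rw [sum_Ico_eq_sum_range, Nat.add_sub_cancel_left]
  rw [hcard]
  calc ∑ j ∈ range N, gd (w + j) ≤ ∑ j ∈ range N, T (w + j) := by
        refine sum_le_sum fun j _ => ?_
        by_cases hall : ∀ i < r * m, In (M * A ^ (i + 1)) (w + j)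
        · have : gd (w + j) = 1 := if_pos hall
          rw [this]
          exact hT1 (w + j) (Nat.le_add_right _ _) hall
        · have : gd (w + j) = 0 := if_neg hall
          rw [this]
          exact hT0 _
    _ ≤ 4 * N * av Q T := hfej
    _ ≤ _ := by gcongr

end LCE
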