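import Pool.Agent.LCB.Avg

/-!
# LCE, part A: sums of periodic functions with small periods over intervals (Fejer kernel)
-/

set_option autoImplicit false

namespace LCE

open Finset Function LCB

/-- Finite sums of functions with periods at most `R` dividing `Q`. -/
inductive PB (Q R : ℕ) : (ℕ → ℝ) → Prop
  | base {q : ℕ} {φ : ℕ → ℝ} (hq : q ∣ Q) (hR : q ≤ R) (hp : Periodic φ q) : PB Q R φ
  | add {φ ψ : ℕ → ℝ} (h1 : PB Q R φ) (h2 : PB Q R ψ) : PB Q R (fun m => φ m + ψ m)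

variable {Q R S : ℕ}

theorem PB.periodic {φ : ℕ → ℝ} (h : PB Q R φ) : Periodic φ Q := by
  induction h with
  | base hq _ hp => exact per_of_dvd hp hq
  | add _ _ ih1 ih2 => exact per_add ih1 ih2

theorem PB.mono {φ : ℕ → ℝ} (h : PB Q R φ) (hRS : R ≤ S) : PB Q S φ := by
  induction h with
  | base hq hR hp => exact PB.base hq (hR.trans hRS) hp
  | add _ _ ih1 ih2 => exact PB.add ih1 ih2

theorem PB.mul {φ ψ : ℕ → ℝ} (h1 : PB Q R φ) (h2 : PB Q S ψ) : PB Q (R * S) (fun m => φ m * ψ m) := by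
  induction h1 with
  | @base q φ hq hqR hp =>
    induction h2 with
    | @base r ψ hr hrS hp' =>
      refine PB.base (q := Nat.lcm q r) (Nat.lcm_dvd hq hr) ?_
        (per_mul (per_of_dvd hp (Nat.dvd_lcm_left q r)) (per_of_dvd hp' (Nat.dvd_lcm_right q r)))
      calc Nat.lcm q r ≤ q * r := by
            rcases Nat.eq_zero_or_pos (q * r) with h0 | h0
            · rw [h0]
              rcases Nat.mul_eq_zero.1 h0 with h | h
              · rw [h]; simp
              · rw [h]; simp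
            · exact Nat.le_of_dvd h0 (Nat.lcm_dvd_mul q r)
        _ ≤ R * S := Nat.mul_le_mul hqR hrS
    | add _ _ ih1 ih2 =>
      have h3 := PB.add ih1 ih2
      simp only [mul_add]
      exact h3
  | add _ _ ih1 ih2 =>
    have h3 := PB.add ih1 ih2
    simp only [add_mul]
    exact h3

theorem PB.const (Q : ℕ) (c : ℝ) : PB Q 1 (fun _ => c) :=
  PB.base (q := 1) (one_dvd Q) (le_refl 1) (fun _ => rfl)

theorem PB.const' (Q : ℕ) {R : ℕ} (hR : 1 ≤ R) (c : ℝ) : PB Q R (fun _ => c) := (PB.const Q c).mono hR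

theorem PB.smul {φ : ℕ → ℝ} (h : PB Q R φ) (c : ℝ) : PB Q R (fun m => c * φ m) := by
  have := PB.mul (PB.const Q c) h
  rwa [one_mul] at this

theorem PB.div {φ : ℕ → ℝ} (h : PB Q R φ) (c : ℝ) : PB Q R (fun m => φ m / c) := by
  have := h.smul c⁻¹
  have e : (fun m => φ m / c) = (fun m => c⁻¹ * φ m) := by
    funext m
    rw [div_eq_inv_mul]
  rw [e]
  exact this

theorem PB.sub {φ ψ : ℕ → ℝ} (h1 : PB Q R φ) (h2 : PB Q R ψ) : PB Q R (fun m => φ m - ψ m) := by
  have := PB.add h1 (h2.smul (-1))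
  have e : (fun m => φ m - ψ m) = (fun m => φ m + (-1) * ψ m) := by
    funext m
    ring
  rw [e]
  exact this

theorem PB.sum {ι : Type} {s : Finset ι} (hR : 1 ≤ R) {φ : ι → ℕ → ℝ}
    (h : ∀ i ∈ s, PB Q R (φ i)) : PB Q R (fun m => ∑ i ∈ s, φ i m) := by
  classical
  induction s using Finset.induction_on with
  | empty =>
    simp only [sum_empty]
    exact PB.const' Q hR 0
  | insert i s hi ih =>
    simp only [sum_insert hi]
    exact PB.add (h i (mem_insert_self i s)) (ih fun j hj => h j (mem_insert_of_mem hj))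

theorem PB.prod {ι : Type} {s : Finset ι} {φ : ι → ℕ → ℝ}
    (h : ∀ i ∈ s, PB Q R (φ i)) : PB Q (R ^ s.card) (fun m => ∏ i ∈ s, φ i m) := by
  classical
  induction s using Finset.induction_on with
  | empty =>
    simp only [prod_empty, card_empty, pow_zero]
    exact PB.const Q 1
  | insert i s hi ih =>
    simp only [prod_insert hi, card_insert_of_notMem hi, pow_succ']
    exact PB.mul (h i (mem_insert_self i s)) (ih fun j hj => h j (mem_insert_of_mem hj))

theorem PB.pow {φ : ℕ → ℝ} (h : PB Q R φ) (n : ℕ) : PB Q (R ^ n) (fun m => φ m ^ n) := by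
  have := PB.prod (s := range n) (φ := fun _ => φ) (fun _ _ => h)
  simpa using this

theorem PB.shift {φ : ℕ → ℝ} (h : PB Q R φ) (w : ℕ) : PB Q R (fun m => φ (w + m)) := by
  induction h with
  | @base q φ hq hR hp =>
    refine PB.base hq hR fun m => ?_
    change φ (w + (m + q)) = φ (w + m)
    rw [← add_assoc, hp]
  | add _ _ ih1 ih2 => exact PB.add ih1 ih2

/-- The Fejer kernel. -/
noncomputable def ker (Q H : ℕ) (y : ℝ) : ℝ := ∑ s ∈ range H, ∑ t ∈ range H, Real.cos (2 * Real.pi * ((s : ℝ) - t) * y / Q)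

theorem ker_eq (Q H : ℕ) (y : ℝ) : ker Q H y =
    (∑ t ∈ range H, Real.cos (2 * Real.pi * ((t : ℝ) - ((H : ℝ) - 1) / 2) * y / Q)) ^ 2 +
    (∑ t ∈ range H, Real.sin (2 * Real.pi * ((t : ℝ) - ((H : ℝ) - 1) / 2) * y / Q)) ^ 2 := by
  unfold ker
  rw [sq, sq, sum_mul_sum, sum_mul_sum, ← sum_add_distrib]
  refine sum_congr rfl fun s _ => ?_
  rw [← sum_add_distrib]
  refine sum_congr rfl fun t _ => ?_
  rw [← Real.cos_sub]
  congr 1
  ring

theorem ker_nonneg (Q H : ℕ) (y : ℝ) : 0 ≤ ker Q H y := by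
  rw [ker_eq]
  positivity

theorem ker_ge {Q H : ℕ} (hQ : 0 < Q) {y : ℝ} (hy : 4 * (|y| * H) ≤ Q) : (H : ℝ) ^ 2 / 2 ≤ ker Q H y := by
  have hQ0 : (0 : ℝ) < Q := by exact_mod_cast hQ
  have hH0 : (0 : ℝ) ≤ H := Nat.cast_nonneg H
  rw [ker_eq]
  have h1 : (H : ℝ) * (√2 / 2) ≤ ∑ t ∈ range H, Real.cos (2 * Real.pi * ((t : ℝ) - ((H : ℝ) - 1) / 2) * y / Q) := by
    calc (H : ℝ) * (√2 / 2) = ∑ _t ∈ range H, √2 / 2 := by rw [sum_const, card_range, nsmul_eq_mul]
      _ ≤ _ := by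
          refine sum_le_sum fun t ht => ?_
          rw [mem_range] at ht
          have ht1 : (t : ℝ) + 1 ≤ H := by exact_mod_cast ht
          have ht0 : (0 : ℝ) ≤ t := Nat.cast_nonneg t
          have h2 : |(t : ℝ) - ((H : ℝ) - 1) / 2| ≤ H / 2 := by
            rw [abs_le]
            constructor <;> linarith
          rw [← Real.cos_pi_div_four, ← Real.cos_abs (2 * Real.pi * ((t : ℝ) - ((H : ℝ) - 1) / 2) * y / Q)]
          refine Real.cos_le_cos_of_nonneg_of_le_pi (abs_nonneg _) (by linarith [Real.pi_pos]) ?_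
          rw [abs_div, abs_mul, abs_mul, abs_of_pos (by positivity : (0 : ℝ) < 2 * Real.pi), abs_of_pos hQ0,
            div_le_iff₀ hQ0]
          have h3 : |(t : ℝ) - ((H : ℝ) - 1) / 2| * |y| ≤ (H / 2) * |y| := by gcongr
          calc 2 * Real.pi * |(t : ℝ) - ((H : ℝ) - 1) / 2| * |y| = 2 * Real.pi * (|(t : ℝ) - ((H : ℝ) - 1) / 2| * |y|) := by ring
            _ ≤ 2 * Real.pi * ((H / 2) * |y|) := by gcongr
            _ = Real.pi / 4 * (4 * (|y| * H)) := by ring
            _ ≤ Real.pi / 4 * Q := by gcongr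
  have h2 : ((H : ℝ) * (√2 / 2)) ^ 2 = (H : ℝ) ^ 2 / 2 := by
    have h3 : √(2 : ℝ) ^ 2 = 2 := Real.sq_sqrt (by norm_num)
    rw [mul_pow, div_pow, h3]
    ring
  have h3 : ((H : ℝ) * (√2 / 2)) ^ 2 ≤
      (∑ t ∈ range H, Real.cos (2 * Real.pi * ((t : ℝ) - ((H : ℝ) - 1) / 2) * y / Q)) ^ 2 :=
    pow_le_pow_left₀ (by positivity) h1 2
  rw [h2] at h3
  have h4 : 0 ≤ (∑ t ∈ range H, Real.sin (2 * Real.pi * ((t : ℝ) - ((H : ℝ) - 1) / 2) * y / Q)) ^ 2 := sq_nonneg _
  linarith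

/-- Shift invariance over a period for complex functions. -/
theorem csum_shift {F : ℕ → ℂ} {q : ℕ} (h : ∀ m, F (m + q) = F m) (a : ℕ) :
    ∑ m ∈ range q, F (m + a) = ∑ m ∈ range q, F m := by
  induction a with
  | zero => simp
  | succ a ih =>
    have h1 : ∑ m ∈ range (q + 1), F (m + a) = ∑ m ∈ range q, F (m + (a + 1)) + F a := by
      rw [sum_range_succ', zero_add]
      congr 1
      exact sum_congr rfl fun m _ => by rw [show m + 1 + a = m + (a + 1) by ring]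
    have h2 : ∑ m ∈ range (q + 1), F (m + a) = ∑ m ∈ range q, F (m + a) + F a := by
      rw [sum_range_succ, show q + a = a + q by ring, h]
    rw [h2] at h1
    rw [← ih]
    exact (add_right_cancel h1).symm

theorem orth {Q q t : ℕ} {g : ℕ → ℝ} (hQ : 0 < Q) (hq : q ∣ Q) (hp : Periodic g q) (ht : 0 < t) (htq : t * q < Q) (c : ℝ) :
    ∑ j ∈ range Q, g j * Real.cos (2 * Real.pi * t * ((j : ℝ) - c) / Q) = 0 := by
  have hQ0 : (Q : ℂ) ≠ 0 := by exact_mod_cast hQ.ne'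
  set ζ : ℂ := Complex.exp (2 * Real.pi * Complex.I * t / Q) with hζ
  set Z : ℂ := ∑ j ∈ range Q, (g j : ℂ) * ζ ^ j with hZ
  have hζQ : ζ ^ Q = 1 := by
    rw [hζ, ← Complex.exp_nat_mul]
    have : (Q : ℂ) * (2 * Real.pi * Complex.I * t / Q) = (t : ℤ) * (2 * Real.pi * Complex.I) := by
      push_cast
      field_simp
    rw [this]
    exact Complex.exp_int_mul_two_pi_mul_I t
  have hper : ∀ m, (g (m + Q) : ℂ) * ζ ^ (m + Q) = (g m : ℂ) * ζ ^ m := by
    intro m
    rw [per_of_dvd hp hq m, pow_add, hζQ, mul_one]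
  have h1 := csum_shift (F := fun m => (g m : ℂ) * ζ ^ m) hper q
  have h2 : ∑ m ∈ range Q, (g (m + q) : ℂ) * ζ ^ (m + q) = ζ ^ q * Z := by
    rw [hZ, mul_sum]
    refine sum_congr rfl fun m _ => ?_
    rw [hp m, pow_add]
    ring
  have h3 : ζ ^ q * Z = Z := by rw [← h2]; exact h1
  have hζq : ζ ^ q ≠ 1 := by
    rw [hζ, ← Complex.exp_nat_mul, Ne, Complex.exp_eq_one_iff]
    rintro ⟨n, hn⟩
    have hpi : (2 * (Real.pi : ℂ) * Complex.I) ≠ 0 := Complex.two_pi_I_ne_zero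
    have h4 : (q : ℂ) * t = n * Q := by
      have h5 : (q : ℂ) * (2 * Real.pi * Complex.I * t / Q) = ((q : ℂ) * t / Q) * (2 * Real.pi * Complex.I) := by ring
      rw [h5] at hn
      have h6 := mul_right_cancel₀ hpi hn
      rw [div_eq_iff hQ0] at h6
      exact h6
    have h5 : ((q * t : ℕ) : ℤ) = n * Q := by exact_mod_cast h4
    have hq0 : 0 < q := Nat.pos_of_dvd_of_pos hq hQ
    have hqt : 0 < q * t := Nat.mul_pos hq0 ht
    have h6 : 0 < n := by
      by_contra hcon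
      push Not at hcon
      have h7 : n * (Q : ℤ) ≤ 0 := mul_nonpos_of_nonpos_of_nonneg hcon (by positivity)
      have h8 : (0 : ℤ) < ((q * t : ℕ) : ℤ) := by exact_mod_cast hqt
      omega
    have h7 : (Q : ℤ) ≤ n * Q := by nlinarith [(by exact_mod_cast hQ : (0 : ℤ) < Q)]
    have h8 : ((q * t : ℕ) : ℤ) < Q := by
      have : q * t < Q := by rw [mul_comm]; exact htq
      exact_mod_cast this
    omega
  have hZ0 : Z = 0 := by
    have h4 : (ζ ^ q - 1) * Z = 0 := by rw [sub_mul, h3, one_mul, sub_self]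
    rcases mul_eq_zero.1 h4 with h | h
    · exact absurd (sub_eq_zero.1 h) hζq
    · exact h
  have h4 : ((∑ j ∈ range Q, g j * Real.cos (2 * Real.pi * t * ((j : ℝ) - c) / Q) : ℝ)) =
      (Complex.exp (((-(2 * Real.pi * t * c / Q) : ℝ) : ℂ) * Complex.I) * Z).re := by
    rw [hZ, mul_sum, Complex.re_sum]
    refine sum_congr rfl fun j _ => ?_
    have h5 : Complex.exp (((-(2 * Real.pi * t * c / Q) : ℝ) : ℂ) * Complex.I) * ((g j : ℂ) * ζ ^ j) =
        (g j : ℂ) * Complex.exp (((2 * Real.pi * t * ((j : ℝ) - c) / Q : ℝ) : ℂ) * Complex.I) := by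
      rw [hζ, ← Complex.exp_nat_mul, mul_left_comm, ← Complex.exp_add]
      congr 2
      push_cast
      field_simp
      ring
    rw [h5, Complex.re_ofReal_mul, Complex.exp_ofReal_mul_I_re]
  rw [h4, hZ0, mul_zero, Complex.zero_re]

theorem ker_sum {Q0 N : ℕ} (hQ : 0 < Q0) (hN : 0 < N) (hR : R ≤ 2 * N) {f : ℕ → ℝ} (hf : PB Q0 R f) (c : ℝ) :
    ∑ j ∈ range (2 * N * Q0), f j * ker (2 * N * Q0) Q0 ((j : ℝ) - c) = Q0 * ∑ j ∈ range (2 * N * Q0), f j := by
  induction hf with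
  | @base q g hq hqR hp =>
    have hQ' : 0 < 2 * N * Q0 := by positivity
    have hqd : q ∣ 2 * N * Q0 := hq.trans (Dvd.intro_left _ rfl)
    have e1 : ∑ j ∈ range (2 * N * Q0), g j * ker (2 * N * Q0) Q0 ((j : ℝ) - c) =
        ∑ s ∈ range Q0, ∑ t ∈ range Q0, ∑ j ∈ range (2 * N * Q0),
          g j * Real.cos (2 * Real.pi * ((s : ℝ) - t) * ((j : ℝ) - c) / (2 * N * Q0 : ℕ)) := by
      unfold ker
      simp only [mul_sum]
      rw [sum_comm]
      refine sum_congr rfl fun s _ => ?_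
      rw [sum_comm]
    rw [e1]
    have hlt : ∀ s t : ℕ, s < t → t < Q0 → ∑ j ∈ range (2 * N * Q0),
          g j * Real.cos (2 * Real.pi * ((s : ℝ) - t) * ((j : ℝ) - c) / (2 * N * Q0 : ℕ)) = 0 := by
      intro s t hst ht
      rw [← orth hQ' hqd hp (t := t - s) (by omega) (by
        have h1 : t - s < Q0 := by omega
        have h2 : q ≤ 2 * N := hqR.trans hR
        have hq0 : 0 < q := Nat.pos_of_dvd_of_pos hq hQ
        calc (t - s) * q < Q0 * q := by exact Nat.mul_lt_mul_of_pos_right h1 hq0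
          _ ≤ Q0 * (2 * N) := Nat.mul_le_mul_left _ h2
          _ = 2 * N * Q0 := by ring) c]
      refine sum_congr rfl fun j _ => ?_
      rw [Nat.cast_sub hst.le, ← Real.cos_neg]
      congr 2
      ring
    have hgt : ∀ s t : ℕ, t < s → s < Q0 → ∑ j ∈ range (2 * N * Q0),
          g j * Real.cos (2 * Real.pi * ((s : ℝ) - t) * ((j : ℝ) - c) / (2 * N * Q0 : ℕ)) = 0 := by
      intro s t hst ht
      rw [← hlt t s hst ht]
      refine sum_congr rfl fun j _ => ?_
      rw [← Real.cos_neg]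
      congr 2
      ring
    calc ∑ s ∈ range Q0, ∑ t ∈ range Q0, ∑ j ∈ range (2 * N * Q0),
          g j * Real.cos (2 * Real.pi * ((s : ℝ) - t) * ((j : ℝ) - c) / (2 * N * Q0 : ℕ)) =
        ∑ s ∈ range Q0, ∑ j ∈ range (2 * N * Q0), g j := by
          refine sum_congr rfl fun s hs => ?_
          rw [sum_eq_single s]
          · refine sum_congr rfl fun j _ => ?_
            rw [sub_self, mul_zero, zero_mul, zero_div, Real.cos_zero, mul_one]
          · intro t ht hts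
            rcases lt_or_gt_of_ne hts with h | h
            · exact hgt s t h (mem_range.1 hs)
            · exact hlt s t h (mem_range.1 ht)
          · intro h
            exact absurd hs h
      _ = _ := by rw [sum_const, card_range, nsmul_eq_mul]
  | add _ _ ih1 ih2 =>
    simp only [add_mul, sum_add_distrib]
    rw [ih1, ih2]
    ring

/-- The sum of a nonnegative function over an interval. -/
theorem fejer {Q0 N : ℕ} (hQ : 0 < Q0) (hN : 0 < N) (hR : R ≤ 2 * N) {f : ℕ → ℝ} (hf : PB Q0 R f) (h0 : ∀ n, 0 ≤ f n)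
    (w : ℕ) : ∑ j ∈ range N, f (w + j) ≤ 4 * N * av Q0 f := by
  set g : ℕ → ℝ := fun j => f (w + j) with hg
  have hgP : PB Q0 R g := hf.shift w
  have hg0 : ∀ n, 0 ≤ g n := fun n => h0 _
  have hQ' : 0 < 2 * N * Q0 := by positivity
  have hQr : (0 : ℝ) < Q0 := by exact_mod_cast hQ
  have hNr : (0 : ℝ) < N := by exact_mod_cast hN
  have h1 : ∑ j ∈ range N, g j ≤ ∑ j ∈ range N, 2 / (Q0 : ℝ) ^ 2 * (g j * ker (2 * N * Q0) Q0 ((j : ℝ) - (N : ℝ) / 2)) := by
    refine sum_le_sum fun j hj => ?_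
    rw [mem_range] at hj
    have hj1 : (j : ℝ) ≤ N := by exact_mod_cast hj.le
    have hj0 : (0 : ℝ) ≤ j := Nat.cast_nonneg j
    have h2 : |(j : ℝ) - (N : ℝ) / 2| ≤ N / 2 := by
      rw [abs_le]
      constructor <;> linarith
    have h3 := ker_ge (H := Q0) hQ' (y := (j : ℝ) - (N : ℝ) / 2) (by
      push_cast
      calc 4 * (|(j : ℝ) - (N : ℝ) / 2| * Q0) ≤ 4 * ((N : ℝ) / 2 * Q0) := by gcongr
        _ = 2 * N * Q0 := by ring)
    have h4 : 1 ≤ 2 / (Q0 : ℝ) ^ 2 * ker (2 * N * Q0) Q0 ((j : ℝ) - (N : ℝ) / 2) := by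
      calc (1 : ℝ) = 2 / (Q0 : ℝ) ^ 2 * ((Q0 : ℝ) ^ 2 / 2) := by field_simp
        _ ≤ _ := by gcongr
    calc g j = g j * 1 := (mul_one _).symm
      _ ≤ g j * (2 / (Q0 : ℝ) ^ 2 * ker (2 * N * Q0) Q0 ((j : ℝ) - (N : ℝ) / 2)) := mul_le_mul_of_nonneg_left h4 (hg0 j)
      _ = _ := by ring
  have h2 : ∑ j ∈ range N, 2 / (Q0 : ℝ) ^ 2 * (g j * ker (2 * N * Q0) Q0 ((j : ℝ) - (N : ℝ) / 2)) ≤
      ∑ j ∈ range (2 * N * Q0), 2 / (Q0 : ℝ) ^ 2 * (g j * ker (2 * N * Q0) Q0 ((j : ℝ) - (N : ℝ) / 2)) := by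
    refine sum_le_sum_of_subset_of_nonneg (range_subset_range.2 ?_) fun j _ _ => ?_
    · calc N = N * 1 := (mul_one N).symm
        _ ≤ N * (2 * Q0) := Nat.mul_le_mul_left _ (by omega)
        _ = 2 * N * Q0 := by ring
    · exact mul_nonneg (by positivity) (mul_nonneg (hg0 j) (ker_nonneg _ _ _))
  rw [← mul_sum, ← mul_sum] at h2
  rw [ker_sum hQ hN hR hgP] at h2
  have h3 : ∑ j ∈ range (2 * N * Q0), g j = (2 * N * Q0 : ℕ) * av (2 * N * Q0) g := by
    unfold av
    rw [mul_div_cancel₀]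
    exact_mod_cast hQ'.ne'
  have h4 : av (2 * N * Q0) g = av Q0 f := by
    rw [av_of_dvd hgP.periodic (Dvd.intro_left _ rfl) hQ']
    unfold av
    rw [hg, sum_shift hf.periodic w]
  rw [h3, h4] at h2
  rw [← mul_sum] at h1
  refine h1.trans (h2.trans (le_of_eq ?_))
  push_cast
  field_simp
  ring

end LCE
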