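import Pool.Agent.LCE.Cou

/-!
# LCE, part E: choice of the parameters
-/

set_option autoImplicit false

namespace LCE

open Finset Function Filter Topology LCB LCD

/-- The integers up to `x` without a reversed length between `x ^ a` and `x ^ b`. -/
def NE (x a b : ℝ) : Set ℕ := {n : ℕ | (n : ℝ) ≤ x ∧ ∀ k : ℕ, x ^ a ≤ k → (k : ℝ) ≤ x ^ b → k < n → In k n}

theorem NE_mono {x a b b' : ℝ} (hx : 1 ≤ x) (h : b' ≤ b) : NE x a b ⊆ NE x a b' := by
  intro n hn
  refine ⟨hn.1, fun k hk1 hk2 hk3 => hn.2 k hk1 ?_ hk3⟩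
  exact hk2.trans (Real.rpow_le_rpow_of_exponent_le hx h)

theorem NE_fin (x a b : ℝ) : (NE x a b).Finite := by
  rcases le_or_gt 0 x with hx | hx
  · refine (Set.finite_Iic ⌊x⌋₊).subset fun n hn => ?_
    exact Nat.le_floor hn.1
  · refine Set.Finite.subset Set.finite_empty fun n hn => ?_
    have h1 := hn.1
    have h2 : (0 : ℝ) ≤ n := Nat.cast_nonneg n
    linarith

/-- The conditions for large `X`. -/
theorem ev_conds (C1 a ε : ℝ) (ha : 0 < a) (hε : 0 < ε) (k0 r : ℕ) (hr : 1 ≤ r) :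
    ∀ᶠ X : ℝ in atTop, 100 ≤ X ∧ Real.log X ≤ ε / (4 * r ^ 2) * X ∧ (k0 : ℝ) ≤ Real.exp (a * X) ∧
      (X + 1) ^ r ≤ Real.exp (a * X) ∧ C1 * √X < a * X ∧ 2 ≤ Real.exp (ε * X / 2) ∧ 3 * X ^ r ≤ Real.exp (1 / 2 * X) := by
  have hr0 : (0 : ℝ) < r := by exact_mod_cast hr
  have hc : 0 < ε / (4 * (r : ℝ) ^ 2) := by positivity
  have e1 : ∀ᶠ X : ℝ in atTop, Real.log X ≤ ε / (4 * r ^ 2) * X := by
    have h := Real.isLittleO_log_id_atTop.def hc
    filter_upwards [h, eventually_ge_atTop (1 : ℝ)] with X hX h1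
    simp only [id] at hX
    rw [Real.norm_eq_abs, Real.norm_eq_abs, abs_of_nonneg (by linarith : (0 : ℝ) ≤ X)] at hX
    exact (le_abs_self _).trans hX
  have e2 : ∀ᶠ X : ℝ in atTop, (k0 : ℝ) ≤ Real.exp (a * X) := by
    have h : Tendsto (fun X : ℝ => Real.exp (a * X)) atTop atTop :=
      Real.tendsto_exp_atTop.comp (tendsto_id.const_mul_atTop ha)
    exact h.eventually_ge_atTop _
  have e3 : ∀ᶠ X : ℝ in atTop, (X + 1) ^ r ≤ Real.exp (a * X) := by
    have h := (isLittleO_pow_exp_pos_mul_atTop r ha).def (show (0 : ℝ) < (1 / 2) ^ r by positivity)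
    filter_upwards [h, eventually_ge_atTop (1 : ℝ)] with X hX h1
    rw [Real.norm_eq_abs, Real.norm_eq_abs, abs_of_nonneg (by positivity), abs_of_pos (Real.exp_pos _)] at hX
    calc (X + 1) ^ r ≤ (2 * X) ^ r := by
          refine pow_le_pow_left₀ (by linarith) ?_ r
          linarith
      _ = 2 ^ r * X ^ r := by rw [mul_pow]
      _ ≤ 2 ^ r * ((1 / 2) ^ r * Real.exp (a * X)) := by gcongr
      _ = Real.exp (a * X) := by rw [← mul_assoc, ← mul_pow]; norm_num
  have e4 : ∀ᶠ X : ℝ in atTop, C1 * √X < a * X := by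
    have h : ∀ᶠ X : ℝ in atTop, (|C1| / a + 1) ^ 2 ≤ X := eventually_ge_atTop _
    filter_upwards [h] with X hX
    have h1 : |C1| / a + 1 ≤ √X := Real.le_sqrt_of_sq_le hX
    have hX0 : 0 ≤ X := le_trans (by positivity) hX
    have h2 : √X * √X = X := Real.mul_self_sqrt hX0
    have h3 : 0 < √X := lt_of_lt_of_le (by positivity) h1
    have h4 : |C1| < a * √X := by
      rw [← div_lt_iff₀' ha]
      linarith
    calc C1 * √X ≤ |C1| * √X := by gcongr; exact le_abs_self _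
      _ < (a * √X) * √X := by gcongr
      _ = a * X := by rw [mul_assoc, h2]
  have e5 : ∀ᶠ X : ℝ in atTop, 2 ≤ Real.exp (ε * X / 2) := by
    have h : Tendsto (fun X : ℝ => Real.exp ((ε / 2) * X)) atTop atTop :=
      Real.tendsto_exp_atTop.comp (tendsto_id.const_mul_atTop (by positivity))
    filter_upwards [h.eventually_ge_atTop 2] with X hX
    rw [show ε * X / 2 = ε / 2 * X by ring]
    exact hX
  have e6 : ∀ᶠ X : ℝ in atTop, 3 * X ^ r ≤ Real.exp (1 / 2 * X) := by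
    have h := (isLittleO_pow_exp_pos_mul_atTop r (show (0 : ℝ) < 1 / 2 by norm_num)).def (show (0 : ℝ) < 1 / 3 by norm_num)
    filter_upwards [h, eventually_ge_atTop (1 : ℝ)] with X hX h1
    rw [Real.norm_eq_abs, Real.norm_eq_abs, abs_of_nonneg (by positivity), abs_of_pos (Real.exp_pos _)] at hX
    linarith
  filter_upwards [eventually_ge_atTop (100 : ℝ), e1, e2, e3, e4, e5, e6] with X h0 h1 h2 h3 h4 h5 h6
  exact ⟨h0, h1, h2, h3, h4, h5, h6⟩

theorem core (r : ℕ) (hr : 1 ≤ r) (a b : ℝ) (ha0 : 0 < a) (hab : a < b) (hb4 : 4 * r * b ≤ 1) :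
    ∃ C x₀ : ℝ, 0 ≤ C ∧ ∀ x : ℝ, x₀ ≤ x → ((NE x a b).ncard : ℝ) ≤
      C * x * √(Real.log (Real.log x) / Real.log x) ^ r := by
  classical
  obtain ⟨C1, hC1, k0, hcount⟩ := count_E
  have hr0 : (0 : ℝ) < r := by exact_mod_cast hr
  have hr1 : (1 : ℝ) ≤ r := by exact_mod_cast hr
  have hb0 : 0 < b := ha0.trans hab
  have hb1 : 4 * b ≤ 1 := by
    have h1 : 4 * b * 1 ≤ 4 * b * r := by gcongr
    linarith
  obtain ⟨ε, hεdef⟩ : ∃ ε : ℝ, ε = b - a := ⟨_, rfl⟩
  have hε : 0 < ε := by rw [hεdef]; linarith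
  have hε2 : ε ≤ 1 := by rw [hεdef]; linarith
  obtain ⟨X0, hX0⟩ := eventually_atTop.1 (ev_conds C1 a ε ha0 hε k0 r hr)
  set D0 : ℝ := 8 * (r : ℝ) ^ 2 / ε with hD0
  have hD0p : 0 < D0 := by positivity
  refine ⟨1 + 8 * (240000000 * √D0) ^ r + 8 * (r * 25000000), Real.exp (max X0 1), by positivity, fun x hx => ?_⟩
  have hx0 : 0 < x := (Real.exp_pos _).trans_le hx
  set X := Real.log x with hX
  have hXge : max X0 1 ≤ X := by
    rw [hX, Real.le_log_iff_exp_le hx0]
    exact hx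
  obtain ⟨h100, hc1, hc2, hc3, hc4, hc5, hc6⟩ := hX0 X ((le_max_left _ _).trans hXge)
  have hxX : x = Real.exp X := (Real.exp_log hx0).symm
  have hXpos : 0 < X := by linarith
  set Y := Real.log X with hY
  have hY1 : 1 ≤ Y := by
    rw [hY, Real.le_log_iff_exp_le hXpos]
    have := Real.exp_one_lt_d9
    linarith
  have hY0 : 0 < Y := by linarith
  -- parameters
  set t := ε * X / (4 * (r : ℝ) ^ 2 * Y) with ht
  have ht1 : 1 ≤ t := by
    rw [ht, one_le_div (by positivity)]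
    have h1 : 4 * (r : ℝ) ^ 2 * Y ≤ 4 * (r : ℝ) ^ 2 * (ε / (4 * r ^ 2) * X) := by gcongr
    calc 4 * (r : ℝ) ^ 2 * Y ≤ 4 * (r : ℝ) ^ 2 * (ε / (4 * r ^ 2) * X) := h1
      _ = ε * X := by field_simp
  set m := ⌊t⌋₊ with hm
  have hm1 : 1 ≤ m := Nat.le_floor (by exact_mod_cast ht1)
  have hmt : (m : ℝ) ≤ t := Nat.floor_le (by linarith)
  have hmt2 : t / 2 ≤ m := by
    have h1 : t < m + 1 := Nat.lt_floor_add_one t
    have h2 : (1 : ℝ) ≤ m := by exact_mod_cast hm1
    linarith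
  have hm0 : (0 : ℝ) < m := by exact_mod_cast hm1
  set c := ⌈X⌉₊ with hcdef
  have hcX : X ≤ c := Nat.le_ceil X
  have hcX1 : (c : ℝ) ≤ X + 1 := (Nat.ceil_lt_add_one hXpos.le).le
  have hc0 : (0 : ℝ) < c := by linarith
  set A := c ^ r with hA
  set M := ⌈Real.exp (a * X)⌉₊ with hM
  have hM1 : Real.exp (a * X) ≤ M := Nat.le_ceil _
  have hM0 : (0 : ℝ) < M := (Real.exp_pos _).trans_le hM1
  have hM2 : (M : ℝ) ≤ 2 * Real.exp (a * X) := by
    have h1 : (M : ℝ) < Real.exp (a * X) + 1 := Nat.ceil_lt_add_one (Real.exp_pos _).le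
    have h2 : 1 ≤ Real.exp (a * X) := Real.one_le_exp (by positivity)
    linarith
  have hk0M : k0 ≤ M := by
    have : (k0 : ℝ) ≤ M := hc2.trans hM1
    exact_mod_cast this
  have hAr : (A : ℝ) = (c : ℝ) ^ r := by rw [hA]; push_cast; rfl
  have hAM : A ≤ M := by
    have h1 : (A : ℝ) ≤ M := by
      rw [hAr]
      exact (pow_le_pow_left₀ hc0.le hcX1 r).trans (hc3.trans hM1)
    exact_mod_cast h1
  have hc100 : 100 ≤ c := by
    have : (100 : ℝ) ≤ c := h100.trans hcX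
    exact_mod_cast this
  have hA100 : 100 ≤ A := hc100.trans (Nat.le_self_pow (by omega) c)
  set K := M * A ^ (r * m) with hK
  have hKexp : (K : ℝ) ≤ Real.exp (b * X) := by
    have h1 : Real.log (c : ℝ) ≤ 2 * Y := by
      have h2 : (c : ℝ) ≤ X ^ 2 := by nlinarith
      have h3 := Real.log_le_log hc0 h2
      rw [Real.log_pow] at h3
      exact_mod_cast h3
    have h2 : ((A : ℝ) ^ (r * m)) ≤ Real.exp (ε * X / 2) := by
      have h3 : (c : ℝ) = Real.exp (Real.log c) := (Real.exp_log hc0).symm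
      rw [hAr, ← pow_mul, h3, ← Real.exp_nat_mul]
      refine Real.exp_le_exp.2 ?_
      push_cast
      have h4 : (m : ℝ) * (4 * (r : ℝ) ^ 2 * Y) ≤ ε * X := by
        rw [← le_div_iff₀ (by positivity)]
        exact hmt
      calc (r : ℝ) * (r * m) * Real.log c ≤ (r : ℝ) * (r * m) * (2 * Y) := by gcongr
        _ = (m : ℝ) * (4 * (r : ℝ) ^ 2 * Y) / 2 := by ring
        _ ≤ ε * X / 2 := by gcongr
    rw [hK]
    push_cast
    calc (M : ℝ) * (A : ℝ) ^ (r * m) ≤ (2 * Real.exp (a * X)) * Real.exp (ε * X / 2) := by gcongr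
      _ ≤ (Real.exp (ε * X / 2) * Real.exp (a * X)) * Real.exp (ε * X / 2) := by gcongr
      _ = Real.exp (b * X) := by
          rw [← Real.exp_add, ← Real.exp_add]
          congr 1
          rw [hεdef]
          ring
  have hA0 : 0 < A := by omega
  have hMn : 0 < M := by exact_mod_cast hM0
  have hK1 : 1 ≤ K := Nat.mul_pos hMn (Nat.pow_pos hA0)
  have hKr : (1 : ℝ) ≤ K := by exact_mod_cast hK1
  set w := 2 * K ^ 2 + K with hw
  set N := ⌊x⌋₊ + 1 with hN
  have hNx : x ≤ N := by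
    rw [hN]
    push_cast
    exact (Nat.lt_floor_add_one x).le
  have hx1 : 1 ≤ x := by
    rw [hxX]
    exact Real.one_le_exp hXpos.le
  have hN2 : (N : ℝ) ≤ 2 * x := by
    rw [hN]
    push_cast
    have := Nat.floor_le hx0.le
    linarith
  have hKN : K ^ (4 * r) ≤ 2 * N := by
    have h1 : ((K ^ (4 * r) : ℕ) : ℝ) ≤ N := by
      push_cast
      calc (K : ℝ) ^ (4 * r) ≤ Real.exp (b * X) ^ (4 * r) := by gcongr
        _ = Real.exp (4 * r * b * X) := by
            rw [← Real.exp_nat_mul]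
            congr 1
            push_cast
            ring
        _ ≤ Real.exp (1 * X) := Real.exp_le_exp.2 (mul_le_mul_of_nonneg_right hb4 hXpos.le)
        _ = x := by rw [one_mul]; exact hxX.symm
        _ ≤ N := hNx
    have h2 : K ^ (4 * r) ≤ N := by exact_mod_cast h1
    omega
  have htX : t ≤ X := by
    rw [ht, div_le_iff₀ (by positivity)]
    have h1 : ε * X ≤ 1 * X := by gcongr
    have h2 : (1 : ℝ) ≤ 4 * (r : ℝ) ^ 2 * Y := by nlinarith
    nlinarith
  have hmX : √(m : ℝ) ≤ √X := Real.sqrt_le_sqrt (hmt.trans htX)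
  have hlogM : C1 * √(m : ℝ) < Real.log M := by
    have h1 : a * X ≤ Real.log M := by
      rw [Real.le_log_iff_exp_le hM0]
      exact hM1
    calc C1 * √(m : ℝ) ≤ C1 * √X := by gcongr
      _ < a * X := hc4
      _ ≤ _ := h1
  have hfin := hcount M A m r w N hm1 hr hk0M hAM hA100 le_rfl hKN hlogM
  -- the inclusion
  have hpa : x ^ a = Real.exp (a * X) := by
    rw [Real.rpow_def_of_pos hx0, ← hX, mul_comm]
  have hpb : x ^ b = Real.exp (b * X) := by
    rw [Real.rpow_def_of_pos hx0, ← hX, mul_comm]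
  have hsub : NE x a b ⊆ ((range w ∪ (Ico w (w + N)).filter (fun n => ∀ i < r * m, In (M * A ^ (i + 1)) n) : Finset ℕ) : Set ℕ) := by
    intro n hn
    rw [mem_coe, mem_union, mem_range, mem_filter, mem_Ico]
    by_cases hnw : n < w
    · exact Or.inl hnw
    · refine Or.inr ⟨⟨not_lt.1 hnw, ?_⟩, fun i hi => ?_⟩
      · have h1 : n ≤ ⌊x⌋₊ := Nat.le_floor hn.1
        omega
      · have h1 : M * A ^ (i + 1) ≤ K := Nat.mul_le_mul_left _ (Nat.pow_le_pow_right hA0 (by omega))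
        refine hn.2 _ ?_ ?_ ?_
        · rw [hpa]
          refine hM1.trans ?_
          have h2 : M ≤ M * A ^ (i + 1) := Nat.le_mul_of_pos_right _ (Nat.pow_pos hA0)
          exact_mod_cast h2
        · rw [hpb]
          refine le_trans ?_ hKexp
          exact_mod_cast h1
        · have h2 : K ≤ K ^ 2 := Nat.le_self_pow two_ne_zero K
          omega
  have hcard : ((NE x a b).ncard : ℝ) ≤ w + (((Ico w (w + N)).filter (fun n => ∀ i < r * m, In (M * A ^ (i + 1)) n)).card : ℝ) := by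
    have h1 := Set.ncard_le_ncard hsub (finite_toSet _)
    rw [Set.ncard_coe_finset] at h1
    have h2 := card_union_le (range w) ((Ico w (w + N)).filter (fun n => ∀ i < r * m, In (M * A ^ (i + 1)) n))
    rw [card_range] at h2
    exact_mod_cast h1.trans h2
  -- the estimates
  set ρ := Y / X with hρ
  have hρ0 : 0 < ρ := by positivity
  have hsρ : 0 < √ρ := Real.sqrt_pos.2 hρ0
  have hsX : 1 ≤ √X := Real.one_le_sqrt.2 (by linarith)
  have hρX : (√X)⁻¹ ≤ √ρ := by
    rw [← Real.sqrt_inv]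
    refine Real.sqrt_le_sqrt ?_
    rw [hρ, inv_eq_one_div]
    gcongr
  have hρXr : (√X ^ r)⁻¹ ≤ √ρ ^ r := by
    rw [← inv_pow]
    exact pow_le_pow_left₀ (by positivity) hρX r
  have F1 : (240000000 / √(m : ℝ)) ^ r ≤ (240000000 * √D0) ^ r * √ρ ^ r := by
    rw [← mul_pow]
    refine pow_le_pow_left₀ (by positivity) ?_ r
    rw [mul_assoc, ← Real.sqrt_mul hD0p.le, div_eq_mul_inv, ← Real.sqrt_inv]
    refine mul_le_mul_of_nonneg_left (Real.sqrt_le_sqrt ?_) (by norm_num)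
    rw [inv_eq_one_div, div_le_iff₀ hm0]
    calc (1 : ℝ) = D0 * ρ * (t / 2) := by
          rw [hD0, hρ, ht]
          field_simp
          norm_num
      _ ≤ D0 * ρ * m := by gcongr
  have F2 : √(m : ℝ) / A ≤ √ρ ^ r := by
    refine le_trans ?_ hρXr
    have h1 : √X ^ (r + 1) ≤ (A : ℝ) := by
      rw [hAr]
      calc √X ^ (r + 1) ≤ √X ^ (2 * r) := pow_le_pow_right₀ hsX (by omega)
        _ = X ^ r := by rw [pow_mul, Real.sq_sqrt hXpos.le]
        _ ≤ (c : ℝ) ^ r := by gcongr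
    have hsX0 : 0 < √X := by linarith
    calc √(m : ℝ) / A ≤ √X / √X ^ (r + 1) := by gcongr
      _ = (√X ^ r)⁻¹ := by
          rw [pow_succ]
          field_simp
  have F3 : (w : ℝ) ≤ x * √ρ ^ r := by
    have h1 : (w : ℝ) ≤ 3 * (K : ℝ) ^ 2 := by
      rw [hw]
      push_cast
      have h0 : (K : ℝ) ≤ (K : ℝ) ^ 2 := le_self_pow₀ hKr two_ne_zero
      linarith
    have h2 : (K : ℝ) ^ 2 ≤ Real.exp (1 / 2 * X) := by
      calc (K : ℝ) ^ 2 ≤ Real.exp (b * X) ^ 2 := by gcongr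
        _ = Real.exp (2 * b * X) := by
            rw [← Real.exp_nat_mul]
            congr 1
            push_cast
            ring
        _ ≤ _ := by
            refine Real.exp_le_exp.2 ?_
            have h4 : 2 * b ≤ 1 / 2 := by linarith
            exact mul_le_mul_of_nonneg_right h4 hXpos.le
    have h3 : √X ^ r ≤ X ^ r := by
      refine pow_le_pow_left₀ (by positivity) ?_ r
      have h4 : √X * √X = X := Real.mul_self_sqrt hXpos.le
      nlinarith
    have hXr : 0 < X ^ r := by positivity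
    have hsXr : 0 < √X ^ r := by positivity
    calc (w : ℝ) ≤ 3 * (K : ℝ) ^ 2 := h1
      _ ≤ 3 * Real.exp (1 / 2 * X) := by gcongr
      _ = (3 * X ^ r) * Real.exp (1 / 2 * X) * (X ^ r)⁻¹ := by field_simp
      _ ≤ Real.exp (1 / 2 * X) * Real.exp (1 / 2 * X) * (√X ^ r)⁻¹ := by gcongr
      _ = x * (√X ^ r)⁻¹ := by
          rw [← Real.exp_add, hxX]
          congr 2
          ring
      _ ≤ x * √ρ ^ r := by gcongr
  have F4 : 4 * (N : ℝ) * ((240000000 / √(m : ℝ)) ^ r + r * (25000000 * √(m : ℝ) / A)) ≤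
      (8 * (240000000 * √D0) ^ r + 8 * (r * 25000000)) * x * √ρ ^ r := by
    have h1 : (r : ℝ) * (25000000 * √(m : ℝ) / A) ≤ r * 25000000 * √ρ ^ r := by
      calc (r : ℝ) * (25000000 * √(m : ℝ) / A) = r * 25000000 * (√(m : ℝ) / A) := by ring
        _ ≤ _ := by gcongr
    have h2 : 0 ≤ (240000000 / √(m : ℝ)) ^ r + r * (25000000 * √(m : ℝ) / A) := by positivity
    calc 4 * (N : ℝ) * ((240000000 / √(m : ℝ)) ^ r + r * (25000000 * √(m : ℝ) / A))
        ≤ 4 * (2 * x) * ((240000000 / √(m : ℝ)) ^ r + r * (25000000 * √(m : ℝ) / A)) := by gcongr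
      _ ≤ 4 * (2 * x) * ((240000000 * √D0) ^ r * √ρ ^ r + r * 25000000 * √ρ ^ r) := by gcongr
      _ = _ := by ring
  calc ((NE x a b).ncard : ℝ) ≤ w + 4 * (N : ℝ) * ((240000000 / √(m : ℝ)) ^ r + r * (25000000 * √(m : ℝ) / A)) := by
        linarith
    _ ≤ x * √ρ ^ r + (8 * (240000000 * √D0) ^ r + 8 * (r * 25000000)) * x * √ρ ^ r := add_le_add F3 F4
    _ = _ := by ring

theorem final (r : ℕ) (hr : 1 ≤ r) (a b : ℝ) (ha0 : 0 < a) (hab : a < b) (har : 4 * r * a < 1) :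
    ∃ C x₀ : ℝ, ∀ x : ℝ, x₀ ≤ x → ((NE x a b).ncard : ℝ) ≤
      C * x * (Real.log (Real.log x) / Real.log x) ^ ((r : ℝ) / 2) := by
  have hr0 : (0 : ℝ) < r := by exact_mod_cast hr
  have hab' : a < min b (1 / (4 * r)) := by
    refine lt_min hab ?_
    rw [lt_div_iff₀ (by positivity)]
    linarith
  have hb4 : 4 * r * min b (1 / (4 * r)) ≤ 1 := by
    calc 4 * r * min b (1 / (4 * r)) ≤ 4 * r * (1 / (4 * r)) := by
          gcongr
          exact min_le_right _ _
      _ = 1 := by field_simp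
  obtain ⟨C, x₀, hC, h⟩ := core r hr a (min b (1 / (4 * r))) ha0 hab' hb4
  refine ⟨C, max x₀ (Real.exp (Real.exp 1)), fun x hx => ?_⟩
  have hx1 : Real.exp (Real.exp 1) ≤ x := (le_max_right _ _).trans hx
  have hx0 : 0 < x := (Real.exp_pos _).trans_le hx1
  have hX : Real.exp 1 ≤ Real.log x := by
    rw [Real.le_log_iff_exp_le hx0]
    exact hx1
  have hX0 : 0 < Real.log x := (Real.exp_pos _).trans_le hX
  have hY : 1 ≤ Real.log (Real.log x) := by
    rw [Real.le_log_iff_exp_le hX0]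
    exact hX
  have hx2 : 1 ≤ x := (Real.one_le_exp (Real.exp_pos 1).le).trans hx1
  have h1 := Set.ncard_le_ncard (NE_mono (a := a) hx2 (min_le_left b (1 / (4 * r)))) (NE_fin x a _)
  have h2 : ((NE x a b).ncard : ℝ) ≤ ((NE x a (min b (1 / (4 * r)))).ncard : ℝ) := by exact_mod_cast h1
  refine h2.trans ((h x ((le_max_left _ _).trans hx)).trans (le_of_eq ?_))
  congr 1
  rw [Real.sqrt_eq_rpow, ← Real.rpow_natCast, ← Real.rpow_mul (by positivity)]
  congr 1
  ring

end LCE
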