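import Pool.Agent.LCE.Tst

/-!
# LCE, part C: one scale and the counting theorem
-/

set_option autoImplicit false

namespace LCE

open Finset Function ArithmeticFunction Filter Topology LCB LCD

/-- The normalised sum over the small primes. -/
noncomputable def rr (z k n : ℕ) : ℝ := Uf (pr 0 z) k n / sK k

/-- One scale. -/
theorem scale2 : ∃ C1 : ℝ, 0 < C1 ∧ ∃ k0 : ℕ, 2 ≤ k0 ∧ ∀ z k : ℕ, k0 ≤ k → 100 * z ≤ k → k ≤ z ^ 2 →
    (∀ Q : ℕ, 0 < Q → (∀ p ∈ pr 0 k, p ∣ Q) → 1 / 200 ≤ av Q (fun n => uu z k n ^ 2) ∧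
      av Q (fun n => uu z k n ^ 4) ≤ 80 ∧ av Q (uu z k) = 0 ∧ av Q (fun n => rr z k n ^ 2) ≤ (z : ℝ) / k) ∧
    (∀ n : ℕ, 2 * k ^ 2 + k ≤ n → (Icc (n - k + 1) n).lcm id ≤ (Icc (n + 1) (n + k)).lcm id →
      -(C1 / √(Real.log k)) ≤ uu z k n + rr z k n) := by
  obtain ⟨C, hC⟩ := Chebyshev.psi_sub_theta_le_mul_sqrt
  have hC0 : 0 ≤ C := by
    have h1 := hC 1
    rw [Real.sqrt_one, mul_one] at h1
    have h2 := Chebyshev.theta_le_psi 1
    linarith
  have ev1 : ∀ᶠ k : ℕ in atTop, C * √(k : ℝ) ≤ (1 / 50) * k := by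
    have h1 : ∀ᶠ k : ℕ in atTop, ((50 * C) ^ 2 : ℝ) ≤ k := tendsto_natCast_atTop_atTop.eventually_ge_atTop _
    filter_upwards [h1] with k hk
    have h2 : 50 * C ≤ √(k : ℝ) := Real.le_sqrt_of_sq_le hk
    have h3 : √(k : ℝ) * √(k : ℝ) = k := Real.mul_self_sqrt (Nat.cast_nonneg k)
    have h4 := Real.sqrt_nonneg (k : ℝ)
    nlinarith
  have ev2 : ∀ᶠ k : ℕ in atTop, (1 : ℝ) ≤ Real.log (k : ℝ) :=
    (Real.tendsto_log_atTop.comp tendsto_natCast_atTop_atTop).eventually_ge_atTop _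
  obtain ⟨k1, hk1⟩ := eventually_atTop.1 (ev1.and (ev2.and drift_ev))
  refine ⟨1 + C, by linarith, max k1 2, le_max_right _ _, fun z k hk hz hkz => ?_⟩
  obtain ⟨E1, hlog1, E3⟩ := hk1 k ((le_max_left _ _).trans hk)
  have hk2 : 2 ≤ k := (le_max_right _ _).trans hk
  have hkr : (2 : ℝ) ≤ k := by exact_mod_cast hk2
  have hk0 : (0 : ℝ) < k := by linarith
  have hlog0 : 0 < Real.log (k : ℝ) := by linarith
  have hsk1 : 1 ≤ √(k : ℝ) := Real.one_le_sqrt.2 (by linarith)
  have hs2 : sK k ^ 2 = 2 * (k : ℝ) * Real.log k := Real.sq_sqrt (by positivity)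
  have hs0 : 0 < sK k := by
    unfold sK
    exact Real.sqrt_pos.2 (by positivity)
  have hzk : z ≤ k := by omega
  refine ⟨?_, ?_⟩
  · intro Q hQ hQd
    have hQd' : ∀ p ∈ pr z k, p ∣ Q := fun p hp => hQd p (by
      rw [mem_pr] at hp ⊢
      exact ⟨⟨hp.2.pos, hp.1.2⟩, hp.2⟩)
    have hQd2 : ∀ p ∈ pr 0 z, p ∣ Q := fun p hp => hQd p (by
      rw [mem_pr] at hp ⊢
      exact ⟨⟨hp.2.pos, hp.1.2.trans hzk⟩, hp.2⟩)
    have hpp : ∀ p ∈ pr z k, p.Prime := fun p hp => (mem_pr.1 hp).2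
    have hpp2 : ∀ p ∈ pr 0 z, p.Prime := fun p hp => (mem_pr.1 hp).2
    refine ⟨?_, ?_, ?_, ?_⟩
    · have h1 := Uf_sq hQ hpp hQd' k
      have h2 : av Q (fun n => uu z k n ^ 2) = av Q (fun n => Uf (pr z k) k n ^ 2) / sK k ^ 2 := by
        unfold uu
        simp only [div_pow]
        simp only [div_eq_mul_inv]
        rw [av_mul_right]
      rw [h2, hs2, le_div_iff₀ (by positivity)]
      refine le_trans ?_ h1
      have h3 := sum_tt_ge (y := z) (k := k) hzk
      have h4 : Chebyshev.theta (z : ℝ) ≤ Real.log 4 * z := Chebyshev.theta_le_log4_mul_x (Nat.cast_nonneg z)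
      have h5 : Real.log 4 ≤ 7 / 5 := by
        rw [show (4 : ℝ) = 2 ^ 2 by norm_num, Real.log_pow]
        have := Real.log_two_lt_d9
        push_cast
        linarith
      have h6 : (100 : ℝ) * z ≤ k := by exact_mod_cast hz
      have h7 : (0 : ℝ) ≤ z := Nat.cast_nonneg z
      have h8 := hC k
      have h9 : (1 / 100) * (k : ℝ) ≤ ∑ p ∈ pr z k, Real.log p * tt k p := by
        nlinarith
      have hz1 : 0 < z := by
        rcases Nat.eq_zero_or_pos z with h | h
        · rw [h] at hkz; omega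
        · exact h
      have hzr : (0 : ℝ) < z := by exact_mod_cast hz1
      have h10 : Real.log k ≤ 2 * Real.log z := by
        have h11 : (k : ℝ) ≤ (z : ℝ) ^ 2 := by exact_mod_cast hkz
        have h12 := Real.log_le_log (by linarith) h11
        rw [Real.log_pow] at h12
        exact_mod_cast h12
      calc 1 / 200 * (2 * (k : ℝ) * Real.log k) = Real.log k * ((1 / 100) * (k : ℝ)) := by ring
        _ ≤ Real.log k * ∑ p ∈ pr z k, Real.log p * tt k p := by gcongr
        _ = ∑ p ∈ pr z k, Real.log k * (Real.log p * tt k p) := by rw [mul_sum]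
        _ ≤ ∑ p ∈ pr z k, Real.log p ^ 2 * (2 * tt k p) := by
            refine sum_le_sum fun p hp => ?_
            have hp' := mem_pr.1 hp
            have h13 : Real.log z ≤ Real.log p := Real.log_le_log hzr (by exact_mod_cast hp'.1.1.le)
            have h14 : 0 ≤ Real.log p * tt k p :=
              mul_nonneg (Real.log_nonneg (by exact_mod_cast hp'.2.one_lt.le)) (tt_nonneg k p)
            have h15 : Real.log k ≤ 2 * Real.log p := by linarith
            calc Real.log k * (Real.log p * tt k p) ≤ (2 * Real.log p) * (Real.log p * tt k p) := by gcongr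
              _ = _ := by ring
    · unfold uu
      refine Uf_four hQ hpp hQd' k hs0 ?_
      rw [hs2]
      exact vS_pr_le (le_refl k) (by omega)
    · refine av_odd fun n hn => ?_
      unfold uu
      rw [Uf_odd hQd' k hn, neg_div]
    · have h1 := Uf_sq_le hQ hpp2 hQd2 k
      have h2 : av Q (fun n => rr z k n ^ 2) = av Q (fun n => Uf (pr 0 z) k n ^ 2) / sK k ^ 2 := by
        unfold rr
        simp only [div_pow]
        simp only [div_eq_mul_inv]
        rw [av_mul_right]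
      rw [h2, hs2, div_le_div_iff₀ (by positivity) hk0]
      have hz1 : 1 ≤ z := by
        rcases Nat.eq_zero_or_pos z with h | h
        · rw [h] at hkz; omega
        · exact h
      have h3 : vS (pr 0 z) ≤ 2 * (z : ℝ) * Real.log k := vS_pr_le hzk hz1
      calc av Q (fun n => Uf (pr 0 z) k n ^ 2) * (k : ℝ) ≤ (2 * (z : ℝ) * Real.log k) * k := by
            gcongr
            exact h1.trans h3
        _ = z * (2 * (k : ℝ) * Real.log k) := by ring
  · intro n hn hlt
    have h1 := nec hzk (by omega : 1 ≤ k) hn hlt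
    have h2 := hC k
    have h3 : -(1 + C * √(k : ℝ)) / sK k ≤ uu z k n + rr z k n := by
      unfold uu rr
      rw [← add_div]
      gcongr
      linarith
    refine le_trans ?_ h3
    rw [neg_div, neg_le_neg_iff, div_le_div_iff₀ hs0 (Real.sqrt_pos.2 hlog0)]
    have h4 : √(k : ℝ) * √(Real.log k) ≤ sK k := by
      unfold sK
      rw [← Real.sqrt_mul hk0.le]
      refine Real.sqrt_le_sqrt ?_
      nlinarith
    have h5 : 1 + C * √(k : ℝ) ≤ (1 + C) * √(k : ℝ) := by nlinarith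
    calc (1 + C * √(k : ℝ)) * √(Real.log k) ≤ ((1 + C) * √(k : ℝ)) * √(Real.log k) := by gcongr
      _ = (1 + C) * (√(k : ℝ) * √(Real.log k)) := by ring
      _ ≤ (1 + C) * sK k := by gcongr

theorem PB_Uf {K z k : ℕ} (hK : 1 ≤ K) (hk : k ≤ K) (k' : ℕ) : PB (Qn K) K (Uf (pr z k) k') := by
  have h1 : PB (Qn K) K (fun n => ∑ p ∈ pr z k, Real.log p * X p k' n) := by
    refine PB.sum hK fun p hp => ?_
    have hp' := mem_pr.1 hp
    exact PB.base (q := p) (pr_dvd hk hp) (hp'.1.2.trans hk) (per_comp (X_per p k') (fun x => Real.log p * x))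
  exact h1

/-- The modulus of a scale. -/
def qs (z k : ℕ) : ℕ := ∏ p ∈ pr z k, p

theorem qs_dvd {z k K : ℕ} (hk : k ≤ K) : qs z k ∣ Qn K := by
  refine Finset.prod_dvd_of_isRelPrime ?_ fun p hp => pr_dvd hk hp
  intro p hp q hq hpq
  exact Nat.coprime_iff_isRelPrime.1 ((Nat.coprime_primes (mem_pr.1 hp).2 (mem_pr.1 hq).2).2 hpq)

theorem qs_coprime {z k z' k' : ℕ} (h : k ≤ z' ∨ k' ≤ z) : Nat.Coprime (qs z k) (qs z' k') := by
  refine Nat.Coprime.prod_left fun p hp => Nat.Coprime.prod_right fun q hq => ?_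
  have hp' := mem_pr.1 hp
  have hq' := mem_pr.1 hq
  refine (Nat.coprime_primes hp'.2 hq'.2).2 ?_
  rintro rfl
  omega

theorem uu_per (z k : ℕ) : Periodic (uu z k) (qs z k) := by
  have h2 : Periodic (fun n => Uf (pr z k) k n) (∏ p ∈ pr z k, p) :=
    per_sum fun p hp => per_of_dvd (per_comp (X_per p k) (fun x => Real.log p * x)) (dvd_prod_of_mem _ hp)
  exact per_comp h2 (fun x => x / sK k)

end LCE
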