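import Pool.Agent.LCD.Cnt
import Pool.Agent.LCE.Fej

/-!
# LCE, part B: test functions for a group of scales
-/

set_option autoImplicit false

namespace LCE

open Finset Function ArithmeticFunction Filter Topology LCB LCD

/-- The deterministic inequality. -/
theorem pointwise {I : Finset ℕ} {m : ℕ} (hm : 1 ≤ m) (hI : I.card = m) {u r : ℕ → ℝ} {lam τ v : ℝ} (hlam : 0 < lam)
    (hτ : 0 ≤ τ) (hτ1 : 25000000 * lam ^ 2 * τ ^ 2 < 1) (hv : 1 / 200 ≤ v) (h : ∀ i ∈ I, -τ ≤ u i + r i) :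
    1 ≤ (25000000 * lam ^ 2 * ((∑ i ∈ I, u i) / m) ^ 2 + 160000 * ((∑ i ∈ I, u i ^ 2) / m - v) ^ 2 +
      800 / lam ^ 2 * ((∑ i ∈ I, u i ^ 4) / m)) + 25000000 * lam ^ 2 * ((∑ i ∈ I, r i ^ 2) / m) := by
  by_contra hcon
  push Not at hcon
  have hm0 : (0 : ℝ) < m := by exact_mod_cast hm
  have hl2 : 0 < lam ^ 2 := by positivity
  set B := (∑ i ∈ I, u i) / m with hB
  set A2 := (∑ i ∈ I, u i ^ 2) / m with hA2
  set A4 := (∑ i ∈ I, u i ^ 4) / m with hA4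
  set R2 := (∑ i ∈ I, r i ^ 2) / m with hR2
  set A1 := (∑ i ∈ I, |u i|) / m with hA1
  set R1 := (∑ i ∈ I, |r i|) / m with hR1
  have p1 : 0 ≤ 25000000 * lam ^ 2 * B ^ 2 := by positivity
  have p2 : 0 ≤ 160000 * (A2 - v) ^ 2 := by positivity
  have hA40 : 0 ≤ A4 := div_nonneg (sum_nonneg fun i _ => by positivity) hm0.le
  have hR20 : 0 ≤ R2 := div_nonneg (sum_nonneg fun i _ => by positivity) hm0.le
  have p3 : 0 ≤ 800 / lam ^ 2 * A4 := by positivity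
  have p4 : 0 ≤ 25000000 * lam ^ 2 * R2 := by positivity
  have q1 : 25000000 * lam ^ 2 * B ^ 2 < 1 := by linarith
  have q2 : 160000 * (A2 - v) ^ 2 < 1 := by linarith
  have q3 : 800 / lam ^ 2 * A4 < 1 := by linarith
  have q4 : 25000000 * lam ^ 2 * R2 < 1 := by linarith
  have b1 : lam * |B| < 1 / 5000 := by
    by_contra hc
    push Not at hc
    have h1 : (1 / 5000 : ℝ) ^ 2 ≤ (lam * |B|) ^ 2 := pow_le_pow_left₀ (by norm_num) hc 2
    rw [mul_pow, sq_abs] at h1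
    nlinarith
  have b2 : 1 / 400 < A2 := by
    by_contra hc
    push Not at hc
    nlinarith
  have b3 : 1 / 800 < lam * A1 := by
    have h1 : A2 ≤ lam * A1 + A4 / lam ^ 2 := by
      have h2 : ∀ i ∈ I, u i ^ 2 ≤ lam * |u i| + u i ^ 4 / lam ^ 2 := by
        intro i _
        rcases le_or_gt |u i| lam with h3 | h3
        · have h4 : u i ^ 2 ≤ lam * |u i| := by
            rw [← sq_abs, sq]
            exact mul_le_mul_of_nonneg_right h3 (abs_nonneg _)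
          have h5 : 0 ≤ u i ^ 4 / lam ^ 2 := by positivity
          linarith
        · have h4 : u i ^ 2 ≤ u i ^ 4 / lam ^ 2 := by
            rw [le_div_iff₀ hl2]
            have h5 : lam ^ 2 ≤ u i ^ 2 := by
              rw [← sq_abs (u i)]
              exact pow_le_pow_left₀ hlam.le h3.le 2
            have h6 : 0 ≤ u i ^ 2 := sq_nonneg _
            calc u i ^ 2 * lam ^ 2 ≤ u i ^ 2 * u i ^ 2 := by gcongr
              _ = u i ^ 4 := by ring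
          have h5 : 0 ≤ lam * |u i| := by positivity
          linarith
      have h3 := sum_le_sum h2
      rw [sum_add_distrib, ← mul_sum, ← sum_div] at h3
      rw [hA2, hA1, hA4, div_le_iff₀ hm0]
      refine h3.trans (le_of_eq ?_)
      field_simp
    have h2 : A4 / lam ^ 2 < 1 / 800 := by
      rw [div_lt_iff₀ hl2]
      rw [div_mul_eq_mul_div, div_lt_iff₀ hl2] at q3
      linarith
    linarith
  have b4 : A1 ≤ B + 2 * R1 + 2 * τ := by
    have h1 : ∀ i ∈ I, |u i| ≤ u i + 2 * |r i| + 2 * τ := by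
      intro i hi
      have h2 := h i hi
      have h3 := le_abs_self (r i)
      have h4 := abs_nonneg (r i)
      rcases abs_cases (u i) with ⟨h5, h6⟩ | ⟨h5, h6⟩ <;> rw [h5] <;> linarith
    have h2 := sum_le_sum h1
    rw [sum_add_distrib, sum_add_distrib, ← mul_sum, sum_const, hI, nsmul_eq_mul] at h2
    rw [hA1, hB, hR1, div_le_iff₀ hm0]
    refine h2.trans (le_of_eq ?_)
    field_simp
  have b5 : R1 ^ 2 ≤ R2 := by
    rw [hR1, hR2, div_pow, div_le_div_iff₀ (by positivity) hm0]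
    have h1 := sum_mul_sq_le_sq_mul_sq I (fun _ => (1 : ℝ)) (fun i => |r i|)
    simp only [one_mul, one_pow, sum_const, hI, nsmul_eq_mul, mul_one, sq_abs] at h1
    calc (∑ i ∈ I, |r i|) ^ 2 * (m : ℝ) ≤ (m * ∑ i ∈ I, r i ^ 2) * m := by gcongr
      _ = (∑ i ∈ I, r i ^ 2) * (m : ℝ) ^ 2 := by ring
  have hR10 : 0 ≤ R1 := div_nonneg (sum_nonneg fun i _ => abs_nonneg _) hm0.le
  have b6 : lam * R1 < 1 / 5000 := by
    by_contra hc
    push Not at hc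
    have h1 : (1 / 5000 : ℝ) ^ 2 ≤ (lam * R1) ^ 2 := pow_le_pow_left₀ (by norm_num) hc 2
    rw [mul_pow] at h1
    have h2 : lam ^ 2 * R1 ^ 2 ≤ lam ^ 2 * R2 := by gcongr
    nlinarith
  have b7 : lam * τ < 1 / 5000 := by
    by_contra hc
    push Not at hc
    have h1 : (1 / 5000 : ℝ) ^ 2 ≤ (lam * τ) ^ 2 := pow_le_pow_left₀ (by norm_num) hc 2
    rw [mul_pow] at h1
    nlinarith
  have b8 : lam * A1 ≤ lam * |B| + 2 * (lam * R1) + 2 * (lam * τ) := by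
    have h1 : A1 ≤ |B| + 2 * R1 + 2 * τ := by
      have := le_abs_self B
      linarith
    calc lam * A1 ≤ lam * (|B| + 2 * R1 + 2 * τ) := by gcongr
      _ = _ := by ring
  linarith

/-- Orthogonality of independent centred functions. -/
theorem av_sq_sum {I : Finset ℕ} {q : ℕ → ℕ} {W : ℕ → ℕ → ℝ} {Q : ℕ} (hQ : 0 < Q) (hW : ∀ i ∈ I, Periodic (W i) (q i))
    (hqQ : ∀ i ∈ I, q i ∣ Q) (hc : ∀ i ∈ I, ∀ j ∈ I, i ≠ j → Nat.Coprime (q i) (q j)) (h0 : ∀ i ∈ I, av Q (W i) = 0) :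
    av Q (fun n => (∑ i ∈ I, W i n) ^ 2) = ∑ i ∈ I, av Q (fun n => W i n ^ 2) := by
  have e : ∀ n, (∑ i ∈ I, W i n) ^ 2 = ∑ i ∈ I, ∑ j ∈ I, W i n * W j n := by
    intro n
    rw [sq, sum_mul_sum]
  simp only [e]
  rw [av_sum]
  refine sum_congr rfl fun i hi => ?_
  rw [av_sum, sum_eq_single i]
  · exact congrArg (av Q) (funext fun n => (sq _).symm)
  · intro j hj hji
    have hqi : 0 < q i := Nat.pos_of_dvd_of_pos (hqQ i hi) hQ
    have hqj : 0 < q j := Nat.pos_of_dvd_of_pos (hqQ j hj) hQ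
    have hcij := hc i hi j hj (Ne.symm hji)
    have hd : q i * q j ∣ Q := hcij.mul_dvd_of_dvd_of_dvd (hqQ i hi) (hqQ j hj)
    have hper : Periodic (fun n => W i n * W j n) (q i * q j) :=
      per_mul (per_of_dvd (hW i hi) (Dvd.intro _ rfl)) (per_of_dvd (hW j hj) (Dvd.intro_left _ rfl))
    rw [av_of_dvd hper hd hQ, av_indep (hW i hi) (hW j hj) hcij hqi hqj, ← av_of_dvd (hW i hi) (hqQ i hi) hQ, h0 i hi,
      zero_mul]
  · intro h
    exact absurd hi h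

/-- Upper bound for the second moment. -/
theorem Uf_sq_le {S : Finset ℕ} {Q : ℕ} (hQ : 0 < Q) (hS : ∀ p ∈ S, p.Prime) (hSQ : ∀ p ∈ S, p ∣ Q) (k : ℕ) :
    av Q (fun n => Uf S k n ^ 2) ≤ vS S := by
  unfold Uf vS
  rw [av_sq_sum (q := fun p => p) hQ (fun p _ => per_comp (X_per p k) (fun x => Real.log p * x)) hSQ
    (fun p hp q hq hpq => (Nat.coprime_primes (hS p hp) (hS q hq)).2 hpq) (fun p hp => av_odd fun n hn => by
      rw [X_odd k (hSQ p hp) hn]; ring)]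
  refine sum_le_sum fun p _ => ?_
  rw [← av_const hQ (Real.log p ^ 2)]
  refine av_mono Q fun n => ?_
  have h1 := X_abs_le p k n
  rw [mul_pow]
  have h2 : X p k n ^ 2 ≤ 1 := by
    rw [← sq_abs]
    exact pow_le_one₀ (abs_nonneg _) h1
  exact mul_le_of_le_one_right (sq_nonneg _) h2

/-- The first part of the test function. -/
noncomputable def Gt (I : Finset ℕ) (m : ℕ) (U : ℕ → ℕ → ℝ) (v : ℝ) (lam : ℝ) (n : ℕ) : ℝ :=
  25000000 * lam ^ 2 * ((∑ i ∈ I, U i n) / m) ^ 2 + 160000 * ((∑ i ∈ I, U i n ^ 2) / m - v) ^ 2 +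
      800 / lam ^ 2 * ((∑ i ∈ I, U i n ^ 4) / m)

theorem Gt_nonneg (I : Finset ℕ) (m : ℕ) (U : ℕ → ℕ → ℝ) (v : ℝ) (lam : ℝ) (n : ℕ) : 0 ≤ Gt I m U v lam n := by
  unfold Gt
  have h1 : 0 ≤ (∑ i ∈ I, U i n ^ 4) / (m : ℝ) := div_nonneg (sum_nonneg fun i _ => by positivity) (Nat.cast_nonneg m)
  positivity

theorem Gt_per {I : Finset ℕ} {U : ℕ → ℕ → ℝ} {q : ℕ} (h : ∀ i ∈ I, Periodic (U i) q) (m : ℕ) (v : ℝ) (lam : ℝ) :
    Periodic (Gt I m U v lam) q := by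
  intro n
  unfold Gt
  have e : ∀ i ∈ I, U i (n + q) = U i n := fun i hi => h i hi n
  rw [sum_congr rfl e, sum_congr rfl (fun i hi => by rw [e i hi] : ∀ i ∈ I, U i (n + q) ^ 2 = U i n ^ 2),
    sum_congr rfl (fun i hi => by rw [e i hi] : ∀ i ∈ I, U i (n + q) ^ 4 = U i n ^ 4)]

theorem Gt_PB {I : Finset ℕ} {U : ℕ → ℕ → ℝ} {Q K : ℕ} (hK : 1 ≤ K) (h : ∀ i ∈ I, PB Q K (U i)) (m : ℕ) (v : ℝ) (lam : ℝ) :
    PB Q (K ^ 4) (Gt I m U v lam) := by
  have h1 : PB Q (K ^ 4) (fun n => 25000000 * lam ^ 2 * ((∑ i ∈ I, U i n) / m) ^ 2) :=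
    (((((PB.sum hK h).div m).pow 2)).mono (Nat.pow_le_pow_right hK (by norm_num))).smul _
  have h2 : PB Q (K ^ 4) (fun n => 160000 * ((∑ i ∈ I, U i n ^ 2) / m - v) ^ 2) := by
    have h3 : PB Q (K ^ 2) (fun n => (∑ i ∈ I, U i n ^ 2) / m - v) :=
      PB.sub ((PB.sum (Nat.one_le_pow _ _ hK) fun i hi => (h i hi).pow 2).div m) (PB.const' Q (Nat.one_le_pow _ _ hK) v)
    have h4 := h3.pow 2
    rw [← pow_mul] at h4
    exact h4.smul _
  have h3 : PB Q (K ^ 4) (fun n => 800 / lam ^ 2 * ((∑ i ∈ I, U i n ^ 4) / m)) :=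
    ((PB.sum (Nat.one_le_pow _ _ hK) fun i hi => (h i hi).pow 4).div m).smul _
  exact PB.add (PB.add h1 h2) h3

/-- The mean of the test function. -/
theorem av_Gt {I : Finset ℕ} {m : ℕ} (hm : 1 ≤ m) (hI : I.card = m) {U : ℕ → ℕ → ℝ} {q : ℕ → ℕ} {Q : ℕ} (hQ : 0 < Q)
    (hU : ∀ i ∈ I, Periodic (U i) (q i)) (hqQ : ∀ i ∈ I, q i ∣ Q)
    (hc : ∀ i ∈ I, ∀ j ∈ I, i ≠ j → Nat.Coprime (q i) (q j)) (h0 : ∀ i ∈ I, av Q (U i) = 0)
    (h4 : ∀ i ∈ I, av Q (fun n => U i n ^ 4) ≤ 80) {lam : ℝ} (hlam : 0 < lam) :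
    av Q (Gt I m U ((∑ i ∈ I, av Q (fun n => U i n ^ 2)) / m) lam) ≤
      225000000 * lam ^ 2 / m + 12800000 / m + 64000 / lam ^ 2 := by
  have hm0 : (0 : ℝ) < m := by exact_mod_cast hm
  have hl2 : 0 < lam ^ 2 := by positivity
  have h2 : ∀ i ∈ I, av Q (fun n => U i n ^ 2) ≤ 9 := by
    intro i hi
    have h5 : av Q (fun n => U i n ^ 2) ≤ av Q (fun n => U i n ^ 4 / 18 + 9 / 2) := by
      refine av_mono Q fun n => ?_
      nlinarith [sq_nonneg (U i n ^ 2 - 9)]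
    have h6 : av Q (fun n => U i n ^ 4 / 18 + 9 / 2) = av Q (fun n => U i n ^ 4) / 18 + 9 / 2 := by
      rw [av_add, av_const hQ]
      simp only [div_eq_mul_inv]
      rw [av_mul_right]
    have h7 := h4 i hi
    linarith
  have e1 : av Q (fun n => ((∑ i ∈ I, U i n) / (m : ℝ)) ^ 2) ≤ 9 / m := by
    have h5 : av Q (fun n => ((∑ i ∈ I, U i n) / (m : ℝ)) ^ 2) = av Q (fun n => (∑ i ∈ I, U i n) ^ 2) * ((m : ℝ) ^ 2)⁻¹ := by
      simp only [div_pow]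
      simp only [div_eq_mul_inv]
      rw [av_mul_right]
    rw [h5, av_sq_sum hQ hU hqQ hc h0]
    have h6 : ∑ i ∈ I, av Q (fun n => U i n ^ 2) ≤ m * 9 := by
      calc ∑ i ∈ I, av Q (fun n => U i n ^ 2) ≤ ∑ _i ∈ I, (9 : ℝ) := sum_le_sum h2
        _ = m * 9 := by rw [sum_const, hI, nsmul_eq_mul]
    calc (∑ i ∈ I, av Q (fun n => U i n ^ 2)) * ((m : ℝ) ^ 2)⁻¹ ≤ (m * 9) * ((m : ℝ) ^ 2)⁻¹ := by gcongr
      _ = 9 / m := by field_simp
  have e2 : av Q (fun n => ((∑ i ∈ I, U i n ^ 2) / (m : ℝ) - (∑ i ∈ I, av Q (fun n => U i n ^ 2)) / m) ^ 2) ≤ 80 / m := by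
    set W : ℕ → ℕ → ℝ := fun i n => U i n ^ 2 - av Q (fun n => U i n ^ 2) with hW
    have h5 : av Q (fun n => ((∑ i ∈ I, U i n ^ 2) / (m : ℝ) - (∑ i ∈ I, av Q (fun n => U i n ^ 2)) / m) ^ 2) =
        av Q (fun n => (∑ i ∈ I, W i n) ^ 2) * ((m : ℝ) ^ 2)⁻¹ := by
      rw [← av_mul_right]
      refine congrArg (av Q) (funext fun n => ?_)
      rw [hW, ← sub_div, ← sum_sub_distrib, div_pow, div_eq_mul_inv]
    rw [h5, av_sq_sum (q := q) hQ (fun i hi => per_comp (hU i hi) (fun x => x ^ 2 - av Q (fun n => U i n ^ 2))) hqQ hc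
      (fun i _ => by rw [av_sub, av_const hQ, sub_self])]
    have h6 : ∑ i ∈ I, av Q (fun n => W i n ^ 2) ≤ m * 80 := by
      calc ∑ i ∈ I, av Q (fun n => W i n ^ 2) ≤ ∑ _i ∈ I, (80 : ℝ) := by
            refine sum_le_sum fun i hi => ?_
            set v := av Q (fun n => U i n ^ 2) with hv
            have h7 : av Q (fun n => W i n ^ 2) = av Q (fun n => U i n ^ 4) - v ^ 2 := by
              have h8 : ∀ n, W i n ^ 2 = U i n ^ 4 - (2 * v * U i n ^ 2 - v ^ 2) := by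
                intro n
                rw [hW]
                ring
              simp only [h8]
              rw [av_sub, av_sub, av_mul_left, av_const hQ, ← hv]
              ring
            rw [h7]
            have h8 := h4 i hi
            have h9 := sq_nonneg v
            linarith
        _ = m * 80 := by rw [sum_const, hI, nsmul_eq_mul]
    calc (∑ i ∈ I, av Q (fun n => W i n ^ 2)) * ((m : ℝ) ^ 2)⁻¹ ≤ (m * 80) * ((m : ℝ) ^ 2)⁻¹ := by gcongr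
      _ = 80 / m := by field_simp
  have e3 : av Q (fun n => (∑ i ∈ I, U i n ^ 4) / (m : ℝ)) ≤ 80 := by
    have h5 : av Q (fun n => (∑ i ∈ I, U i n ^ 4) / (m : ℝ)) = (∑ i ∈ I, av Q (fun n => U i n ^ 4)) * (m : ℝ)⁻¹ := by
      simp only [div_eq_mul_inv]
      rw [av_mul_right, av_sum]
    rw [h5]
    have h6 : ∑ i ∈ I, av Q (fun n => U i n ^ 4) ≤ m * 80 := by
      calc ∑ i ∈ I, av Q (fun n => U i n ^ 4) ≤ ∑ _i ∈ I, (80 : ℝ) := sum_le_sum h4
        _ = m * 80 := by rw [sum_const, hI, nsmul_eq_mul]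
    calc (∑ i ∈ I, av Q (fun n => U i n ^ 4)) * (m : ℝ)⁻¹ ≤ (m * 80) * (m : ℝ)⁻¹ := by gcongr
      _ = 80 := by field_simp
  have e : av Q (Gt I m U ((∑ i ∈ I, av Q (fun n => U i n ^ 2)) / m) lam) =
      25000000 * lam ^ 2 * av Q (fun n => ((∑ i ∈ I, U i n) / (m : ℝ)) ^ 2) +
      160000 * av Q (fun n => ((∑ i ∈ I, U i n ^ 2) / (m : ℝ) - (∑ i ∈ I, av Q (fun n => U i n ^ 2)) / m) ^ 2) +
      800 / lam ^ 2 * av Q (fun n => (∑ i ∈ I, U i n ^ 4) / (m : ℝ)) := by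
    unfold Gt
    rw [av_add, av_add, av_mul_left, av_mul_left, av_mul_left]
  rw [e]
  calc 25000000 * lam ^ 2 * av Q (fun n => ((∑ i ∈ I, U i n) / (m : ℝ)) ^ 2) +
      160000 * av Q (fun n => ((∑ i ∈ I, U i n ^ 2) / (m : ℝ) - (∑ i ∈ I, av Q (fun n => U i n ^ 2)) / m) ^ 2) +
      800 / lam ^ 2 * av Q (fun n => (∑ i ∈ I, U i n ^ 4) / (m : ℝ)) ≤
      25000000 * lam ^ 2 * (9 / m) + 160000 * (80 / m) + 800 / lam ^ 2 * 80 := by gcongr
    _ = _ := by ring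

end LCE
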